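import Pool.Agent.Helper24.AL.St

set_option autoImplicit false

namespace Pool.Agent.Helper60.AL

open Finset
open Pool.Agent.Helper56.SW (τ Γ I bx E Rel N Nq)
open Pool.Agent.Helper24.AL

lemma Lam_le (hLAM6 : StLAM6) (c : ℕ) (hc : 1 ≤ c) (t b : Fin 3 → ℤ) : Lam c t b ≤ c := by
  rcases Nat.eq_zero_or_pos (Lam c t b) with h | h
  · omega
  · refine (hLAM6 c t b hc h).1.trans (Nat.le_of_dvd hc ?_)
    exact Int.natCast_dvd_natCast.1 (Int.gcd_dvd_right _ _)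

lemma mem_Bx {A B : ℕ} {p : (Fin 3 → ℤ) × (Fin 3 → ℤ)} :
    p ∈ Bx A B ↔ (∀ i, p.1 i ∈ I A) ∧ (∀ i, p.2 i ∈ I B) := by
  unfold Bx
  rw [mem_product, Fintype.mem_piFinset, Fintype.mem_piFinset]

/-- divisors `E` of `c` with `c ≤ E²` -/
def DV (c : ℕ) : Finset ℕ := c.divisors.filter fun e => c ≤ e ^ 2

lemma mem_PR {c A1 B1 A2 B2 F : ℕ} {p : (ℤ × ℤ) × (ℤ × ℤ)} : p ∈ PR c A1 B1 A2 B2 F ↔
    ((p.1.1 ∈ I A1 ∧ p.1.2 ∈ I B1) ∧ (p.2.1 ∈ I A2 ∧ p.2.2 ∈ I B2)) ∧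
    (p.1.1 ≠ 0 ∧ p.1.2 ≠ 0 ∧ p.2.1 ≠ 0 ∧ p.2.2 ≠ 0 ∧
    (c : ℤ) ∣ p.1.1 * p.2.2 - p.2.1 * p.1.2 ∧ p.1.1 * p.2.2 ≠ p.2.1 * p.1.2 ∧
    (F : ℤ) ∣ p.1.1 * p.2.2 ∧ (F : ℤ) ∣ p.2.1 * p.1.2) := by
  unfold PR
  rw [mem_filter, mem_product, mem_product, mem_product]

lemma cnt (hPAIR : StPAIR) (c A B : ℕ) (D : ℝ) (hc : 1 ≤ c)
    (hD : ∀ j : ℕ, 1 ≤ j → j ≤ A * B → τ j ≤ D)
    (T : Finset ((Fin 3 → ℤ) × (Fin 3 → ℤ))) (i j : Fin 3)
    (hT : ∀ p ∈ T, p ∈ Bx A B ∧ Nz p.1 p.2 ∧ c ≤ Int.gcd (p.1 i * p.2 j) c ^ 2 ∧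
      (c : ℤ) ∣ p.1 i * p.2 j - p.1 j * p.2 i ∧ p.1 i * p.2 j ≠ p.1 j * p.2 i)
    (inj : ∀ p ∈ T, ∀ q ∈ T, p.1 i = q.1 i → p.1 j = q.1 j → p.2 i = q.2 i → p.2 j = q.2 j →
      p = q) :
    (T.card : ℝ) ≤ τ c * (32 * D ^ 2 * ((A : ℝ) * B) ^ 2 / (Real.sqrt c * c)) := by
  have hc0 : (0 : ℝ) < c := by exact_mod_cast hc
  have h1 : T.card ≤ ((DV c).sigma fun e => PR c A B A B e).card := by
    refine Finset.card_le_card_of_injOn
      (fun p => (⟨Int.gcd (p.1 i * p.2 j) c, ((p.1 i, p.2 i), (p.1 j, p.2 j))⟩ :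
        Σ _ : ℕ, (ℤ × ℤ) × (ℤ × ℤ))) ?_ ?_
    · intro p hp
      obtain ⟨h1, h2, h3, h4, h5⟩ := hT p hp
      rw [mem_Bx] at h1
      have hg1 : (Int.gcd (p.1 i * p.2 j) c : ℤ) ∣ p.1 i * p.2 j := Int.gcd_dvd_left _ _
      have hg2 : (Int.gcd (p.1 i * p.2 j) c : ℤ) ∣ (c : ℤ) := Int.gcd_dvd_right _ _
      rw [Finset.mem_coe, mem_sigma]
      refine ⟨?_, ?_⟩
      · unfold DV
        rw [mem_filter, Nat.mem_divisors]
        exact ⟨⟨Int.natCast_dvd_natCast.1 hg2, by omega⟩, h3⟩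
      · rw [mem_PR]
        refine ⟨⟨⟨h1.1 i, h1.2 i⟩, ⟨h1.1 j, h1.2 j⟩⟩, (h2 i).1, (h2 i).2, (h2 j).1, (h2 j).2, h4, h5,
          hg1, ?_⟩
        have h6 : (Int.gcd (p.1 i * p.2 j) c : ℤ) ∣ p.1 i * p.2 j - p.1 j * p.2 i := hg2.trans h4
        have h7 := Int.dvd_sub hg1 h6
        rwa [sub_sub_cancel] at h7
    · intro p hp q hq hpq
      simp only [Sigma.mk.injEq, Prod.mk.injEq, heq_eq_eq] at hpq
      obtain ⟨-, ⟨h1, h2⟩, h3, h4⟩ := hpq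
      exact inj p hp q hq h1 h3 h2 h4
  rw [card_sigma] at h1
  have h2 : ∀ e ∈ DV c, ((PR c A B A B e).card : ℝ) ≤
      32 * D ^ 2 * ((A : ℝ) * B) ^ 2 / (Real.sqrt c * c) := by
    intro e he
    unfold DV at he
    rw [mem_filter, Nat.mem_divisors] at he
    have he1 : 1 ≤ e := Nat.pos_of_dvd_of_pos he.1.1 hc
    have h3 := hPAIR c A B A B e (A * B) D hc he1 le_rfl le_rfl hD
    refine h3.trans ?_
    push_cast
    have h4 : Real.sqrt c ≤ e := by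
      rw [Real.sqrt_le_left (by positivity)]
      exact_mod_cast he.2
    have h5 : 0 < Real.sqrt c := Real.sqrt_pos.2 hc0
    refine div_le_div_of_nonneg_left (by positivity) (by positivity) ?_
    exact mul_le_mul_of_nonneg_right h4 hc0.le
  have hnn : 0 ≤ 32 * D ^ 2 * ((A : ℝ) * B) ^ 2 / (Real.sqrt c * c) := by positivity
  calc (T.card : ℝ) ≤ ((∑ e ∈ DV c, (PR c A B A B e).card : ℕ) : ℝ) := by exact_mod_cast h1
    _ = ∑ e ∈ DV c, ((PR c A B A B e).card : ℝ) := by push_cast; rfl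
    _ ≤ ∑ e ∈ DV c, 32 * D ^ 2 * ((A : ℝ) * B) ^ 2 / (Real.sqrt c * c) := sum_le_sum h2
    _ = (DV c).card * (32 * D ^ 2 * ((A : ℝ) * B) ^ 2 / (Real.sqrt c * c)) := by
        rw [sum_const, nsmul_eq_mul]
    _ ≤ τ c * (32 * D ^ 2 * ((A : ℝ) * B) ^ 2 / (Real.sqrt c * c)) := by
        refine mul_le_mul_of_nonneg_right ?_ hnn
        unfold τ
        exact_mod_cast card_filter_le _ _

theorem hZ (hPAIR : StPAIR) (hLAM6 : StLAM6) : StZ := by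
  classical
  intro c A B D hc hD
  have hc0 : (0 : ℝ) < c := by exact_mod_cast hc
  set P : (Fin 3 → ℤ) → (Fin 3 → ℤ) → Prop :=
    fun t b => Nz t b ∧ ¬ Col t b ∧ sg t = 0 ∧ sg b = 0 with hP
  set S := (Bx A B).filter (fun p => P p.1 p.2 ∧ 0 < Lam c p.1 p.2) with hS
  have h1 : WT c A B P ≤ c * S.card := by
    have e0 : WT c A B P = ∑ p ∈ (Bx A B).filter (fun p => P p.1 p.2), Lam c p.1 p.2 := by
      unfold WT
      refine Finset.sum_congr ?_ fun _ _ => rfl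
      ext p
      simp only [mem_filter]
    rw [e0]
    have e1 : ∀ p ∈ (Bx A B).filter (fun p => P p.1 p.2), Lam c p.1 p.2 ≤
        if 0 < Lam c p.1 p.2 then c else 0 := by
      intro p _
      split_ifs with h
      · exact Lam_le hLAM6 c hc _ _
      · omega
    refine (sum_le_sum e1).trans (le_of_eq ?_)
    rw [← sum_filter, sum_const, smul_eq_mul, mul_comm, filter_filter]
  have key : ∀ p ∈ S, p ∈ Bx A B ∧ Nz p.1 p.2 ∧ sg p.1 = 0 ∧ sg p.2 = 0 ∧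
      (∀ i j, (c : ℤ) ∣ p.1 i * p.2 j - p.1 j * p.2 i) ∧
      p.1 0 * p.2 1 ≠ p.1 1 * p.2 0 ∧ p.1 1 * p.2 2 ≠ p.1 2 * p.2 1 ∧
      (c ≤ Int.gcd (p.1 0 * p.2 1) c ^ 2 ∨ c ≤ Int.gcd (p.1 1 * p.2 2) c ^ 2) := by
    intro p hp
    rw [hS, mem_filter] at hp
    obtain ⟨hB, ⟨hnz, hcol, hs1, hs2⟩, hl⟩ := hp
    obtain ⟨-, g2, -, g4, -⟩ := hLAM6 c p.1 p.2 hc hl
    have g5 := g4 hs1 0 1 2 (by decide) (by decide) (by decide)
    have hs1' : p.1 2 = -p.1 0 - p.1 1 := by unfold sg at hs1; linarith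
    have hs2' : p.2 2 = -p.2 0 - p.2 1 := by unfold sg at hs2; linarith
    have hne : p.1 0 * p.2 1 ≠ p.1 1 * p.2 0 := by
      intro h
      apply hcol
      intro i j
      fin_cases i <;> fin_cases j <;> simp [hs1', hs2'] <;> linarith
    refine ⟨hB, hnz, hs1, hs2, g2, hne, ?_, ?_⟩
    · intro h
      apply hne
      rw [hs1', hs2'] at h
      linarith
    · have hx : (c : ℤ) ∣ (Int.gcd (p.1 0) c : ℤ) * (Int.gcd (p.1 1 * p.2 2) c : ℤ) := by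
        have e1 : (c : ℤ) ∣ p.1 0 * (p.1 1 * p.2 2) := by rw [← mul_assoc]; exact g5
        have e2 : c ∣ Int.gcd (p.1 0 * (p.1 1 * p.2 2)) c :=
          Int.natCast_dvd_natCast.1 (Int.dvd_coe_gcd e1 (dvd_refl (c : ℤ)))
        have e3 : Int.gcd (p.1 0 * (p.1 1 * p.2 2)) c ∣
            Int.gcd (p.1 0) c * Int.gcd (p.1 1 * p.2 2) c :=
          Int.gcd_mul_left_dvd_mul_gcd _ _ _
        have e4 := e2.trans e3
        exact_mod_cast e4
      have hy : c ≤ Int.gcd (p.1 0) c * Int.gcd (p.1 1 * p.2 2) c := by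
        refine Nat.le_of_dvd ?_ (by exact_mod_cast hx)
        refine Nat.mul_pos ?_ ?_
        · exact Int.gcd_pos_of_ne_zero_right _ (by omega)
        · exact Int.gcd_pos_of_ne_zero_right _ (by omega)
      have hz : Int.gcd (p.1 0) c ≤ Int.gcd (p.1 0 * p.2 1) c := by
        refine Nat.le_of_dvd (Int.gcd_pos_of_ne_zero_right _ (by omega)) ?_
        exact Int.gcd_dvd_gcd_mul_right_left _ _ _
      by_cases hle : Int.gcd (p.1 0 * p.2 1) c ≤ Int.gcd (p.1 1 * p.2 2) c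
      · right
        calc c ≤ _ := hy
          _ ≤ Int.gcd (p.1 1 * p.2 2) c * Int.gcd (p.1 1 * p.2 2) c :=
            Nat.mul_le_mul_right _ (hz.trans hle)
          _ = _ := by ring
      · left
        push Not at hle
        calc c ≤ _ := hy
          _ ≤ Int.gcd (p.1 0 * p.2 1) c * Int.gcd (p.1 0 * p.2 1) c :=
            Nat.mul_le_mul hz hle.le
          _ = _ := by ring
  set S1 := S.filter (fun p => c ≤ Int.gcd (p.1 0 * p.2 1) c ^ 2) with hS1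
  set S2 := S.filter (fun p => c ≤ Int.gcd (p.1 1 * p.2 2) c ^ 2) with hS2
  have h2 : S.card ≤ S1.card + S2.card := by
    refine (card_le_card ?_).trans (card_union_le S1 S2)
    intro p hp
    rcases (key p hp).2.2.2.2.2.2.2 with h | h
    · exact mem_union_left _ (mem_filter.2 ⟨hp, h⟩)
    · exact mem_union_right _ (mem_filter.2 ⟨hp, h⟩)
  have hext : ∀ p ∈ S, ∀ q ∈ S, ∀ i j : Fin 3, i ≠ j → p.1 i = q.1 i → p.1 j = q.1 j →
      p.2 i = q.2 i → p.2 j = q.2 j → p = q := by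
    intro p hp q hq i j hij a1 a2 a3 a4
    have b1 := (key p hp).2.2.1
    have b2 := (key p hp).2.2.2.1
    have b3 := (key q hq).2.2.1
    have b4 := (key q hq).2.2.2.1
    unfold sg at b1 b2 b3 b4
    refine Prod.ext (funext fun k => ?_) (funext fun k => ?_)
    · fin_cases i <;> fin_cases j <;> fin_cases k <;> simp at hij a1 a2 a3 a4 ⊢ <;> linarith
    · fin_cases i <;> fin_cases j <;> fin_cases k <;> simp at hij a1 a2 a3 a4 ⊢ <;> linarith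
  have h3 := cnt hPAIR c A B D hc hD S1 0 1 (by
    intro p hp
    rw [hS1, mem_filter] at hp
    have k := key p hp.1
    exact ⟨k.1, k.2.1, hp.2, k.2.2.2.2.1 0 1, k.2.2.2.2.2.1⟩) (by
    intro p hp q hq a1 a2 a3 a4
    rw [hS1, mem_filter] at hp hq
    exact hext p hp.1 q hq.1 0 1 (by decide) a1 a2 a3 a4)
  have h4 := cnt hPAIR c A B D hc hD S2 1 2 (by
    intro p hp
    rw [hS2, mem_filter] at hp
    have k := key p hp.1
    exact ⟨k.1, k.2.1, hp.2, k.2.2.2.2.1 1 2, k.2.2.2.2.2.2.1⟩) (by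
    intro p hp q hq a1 a2 a3 a4
    rw [hS2, mem_filter] at hp hq
    exact hext p hp.1 q hq.1 1 2 (by decide) a1 a2 a3 a4)
  have h5 : (WT c A B P : ℝ) ≤ c * S.card := by exact_mod_cast h1
  have h6 : (S.card : ℝ) ≤ S1.card + S2.card := by exact_mod_cast h2
  have h7 : 0 < Real.sqrt c := Real.sqrt_pos.2 hc0
  calc (WT c A B P : ℝ) ≤ c * S.card := h5
    _ ≤ c * (τ c * (32 * D ^ 2 * ((A : ℝ) * B) ^ 2 / (Real.sqrt c * c)) +
        τ c * (32 * D ^ 2 * ((A : ℝ) * B) ^ 2 / (Real.sqrt c * c))) := by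
        refine mul_le_mul_of_nonneg_left ?_ hc0.le
        linarith
    _ = 64 * D ^ 2 * τ c * ((A : ℝ) * B) ^ 2 / Real.sqrt c := by
        field_simp
        ring

end Pool.Agent.Helper60.AL
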